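import Pool.Agent.Helper34.R9.Sheet

/-! # Row BD9 of `Pool.Helper34.R9` (MP_798d7d_nt): size of the members (as `Helper84/R8/BND.lean`) -/

set_option autoImplicit false

namespace Pool.Helper34.R9.S84

open Pool.Helper17.R8 (ek q4 q3 q2 q1 q0 fI fJ)

/-- the hypotheses of BD9 -/
def Ok (C : ℤ) (m : ℕ) (T : (Fin 8 → ℤ) × ℤ) : Prop :=
  (∀ i, |T.1 i| ≤ C * (m : ℤ)) ∧ |T.2| ≤ C * (m : ℤ) ^ 6

/-- `f` is at most `D m ^ k` -/
def BO (cc : ℤ) (k : ℕ) (f : (Fin 8 → ℤ) × ℤ → ℤ) : Prop :=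
  ∃ C : ℤ, 0 ≤ C ∧ ∀ m : ℕ, 1 ≤ m → ∀ T, Ok cc m T → |f T| ≤ C * (m : ℤ) ^ k

variable {cc : ℤ}

theorem BO.mono {j k : ℕ} {f : (Fin 8 → ℤ) × ℤ → ℤ} (h : BO cc j f) (hjk : j ≤ k) : BO cc k f := by
  obtain ⟨C, hC, H⟩ := h
  refine ⟨C, hC, fun m hm T hT => (H m hm T hT).trans ?_⟩
  have hm1 : (1 : ℤ) ≤ (m : ℤ) := by exact_mod_cast hm
  exact mul_le_mul_of_nonneg_left (pow_le_pow_right₀ hm1 hjk) hC

theorem BO.const (k : ℕ) (c : ℤ) : BO cc k (fun _ => c) := by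
  refine ⟨|c|, abs_nonneg c, fun m hm T _ => ?_⟩
  have hm1 : (1 : ℤ) ≤ (m : ℤ) ^ k := one_le_pow₀ (by exact_mod_cast hm)
  have := mul_le_mul_of_nonneg_left hm1 (abs_nonneg c)
  linarith

theorem BO.add {k : ℕ} {f g : (Fin 8 → ℤ) × ℤ → ℤ} (hf : BO cc k f) (hg : BO cc k g) :
    BO cc k (fun T => f T + g T) := by
  obtain ⟨C, hC, H⟩ := hf
  obtain ⟨D, hD, G⟩ := hg
  refine ⟨C + D, by linarith, fun m hm T hT => ?_⟩
  have h1 := H m hm T hT
  have h2 := G m hm T hT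
  have h3 := abs_add_le (f T) (g T)
  rw [add_mul]
  linarith

theorem BO.neg {k : ℕ} {f : (Fin 8 → ℤ) × ℤ → ℤ} (hf : BO cc k f) : BO cc k (fun T => -(f T)) := by
  obtain ⟨C, hC, H⟩ := hf
  refine ⟨C, hC, fun m hm T hT => ?_⟩
  rw [abs_neg]
  exact H m hm T hT

theorem BO.sub {k : ℕ} {f g : (Fin 8 → ℤ) × ℤ → ℤ} (hf : BO cc k f) (hg : BO cc k g) :
    BO cc k (fun T => f T - g T) := by
  have h := hf.add hg.neg
  have e : (fun T : (Fin 8 → ℤ) × ℤ => f T - g T) = fun T => f T + -(g T) := by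
    funext T
    ring
  rw [e]
  exact h

theorem BO.mul {j k l : ℕ} {f g : (Fin 8 → ℤ) × ℤ → ℤ} (hf : BO cc j f) (hg : BO cc k g)
    (hl : j + k ≤ l) : BO cc l (fun T => f T * g T) := by
  apply BO.mono _ hl
  obtain ⟨C, hC, H⟩ := hf
  obtain ⟨D, hD, G⟩ := hg
  refine ⟨C * D, mul_nonneg hC hD, fun m hm T hT => ?_⟩
  have h1 := H m hm T hT
  have h2 := G m hm T hT
  rw [abs_mul, pow_add]
  calc |f T| * |g T| ≤ (C * (m : ℤ) ^ j) * (D * (m : ℤ) ^ k) :=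
        mul_le_mul h1 h2 (abs_nonneg _) (le_trans (abs_nonneg _) h1)
    _ = C * D * ((m : ℤ) ^ j * (m : ℤ) ^ k) := by ring

theorem BO.cmul {k : ℕ} {f : (Fin 8 → ℤ) × ℤ → ℤ} (c : ℤ) (hf : BO cc k f) :
    BO cc k (fun T => c * f T) :=
  (BO.const 0 c).mul hf (by omega)

theorem BO.sum {ι : Type} (F : Finset ι) (k : ℕ) (f : ι → (Fin 8 → ℤ) × ℤ → ℤ)
    (h : ∀ a ∈ F, BO cc k (f a)) : BO cc k (fun T => ∑ a ∈ F, f a T) := by
  classical
  induction F using Finset.induction_on with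
  | empty =>
    simp only [Finset.sum_empty]
    exact BO.const k 0
  | insert a F ha ih =>
    simp only [Finset.sum_insert ha]
    exact (h a (Finset.mem_insert_self _ _)).add
      (ih (fun b hb => h b (Finset.mem_insert_of_mem hb)))

theorem BO.prod {ι : Type} (F : Finset ι) (f : ι → (Fin 8 → ℤ) × ℤ → ℤ)
    (h : ∀ a ∈ F, BO cc 1 (f a)) : BO cc F.card (fun T => ∏ a ∈ F, f a T) := by
  classical
  induction F using Finset.induction_on with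
  | empty =>
    simp only [Finset.prod_empty]
    exact BO.const _ 1
  | insert a F ha ih =>
    simp only [Finset.prod_insert ha]
    exact (h a (Finset.mem_insert_self _ _)).mul
      (ih (fun b hb => h b (Finset.mem_insert_of_mem hb)))
      (by rw [Finset.card_insert_of_notMem ha]; omega)

theorem bo_s (hc : 0 ≤ cc) (i : Fin 8) : BO cc 1 (fun T => T.1 i) := by
  refine ⟨cc, hc, fun m _ T hT => ?_⟩
  rw [pow_one]
  exact hT.1 i

theorem bo_t (hc : 0 ≤ cc) : BO cc 6 (fun T => T.2) :=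
  ⟨cc, hc, fun _ _ _ hT => hT.2⟩

theorem bo_e (hc : 0 ≤ cc) (k : ℕ) : BO cc k (fun T => ek T.1 k) := by
  unfold ek
  apply BO.sum
  intro S hS
  have h := BO.prod S (fun i T => T.1 i) (fun i _ => bo_s hc i)
  rw [(Finset.mem_powersetCard.1 hS).2] at h
  exact h

theorem bo_q4 (hc : 0 ≤ cc) : BO cc 6 (fun T => q4 (ek T.1) T.2) := by
  have e : (fun T : (Fin 8 → ℤ) × ℤ => q4 (ek T.1) T.2) =
      fun T => ek T.1 3 * ek T.1 3 - 4 * T.2 := by
    funext T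
    unfold q4
    ring
  rw [e]
  exact ((bo_e hc 3).mul (bo_e hc 3) (by omega)).sub (BO.cmul 4 (bo_t hc))

theorem bo_q3 (hc : 0 ≤ cc) : BO cc 8 (fun T => q3 (ek T.1) T.2) := by
  have e : (fun T : (Fin 8 → ℤ) × ℤ => q3 (ek T.1) T.2) =
      fun T => 2 * (ek T.1 3 * ek T.1 5) -
        4 * (T.2 * ek T.1 2 + ek T.1 8) := by
    funext T
    unfold q3
    ring
  rw [e]
  exact (BO.cmul 2 ((bo_e hc 3).mul (bo_e hc 5) (by omega))).sub
    (BO.cmul 4 (((bo_t hc).mul (bo_e hc 2) (by omega)).add (bo_e hc 8)))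

theorem bo_q2 (hc : 0 ≤ cc) : BO cc 10 (fun T => q2 (ek T.1) T.2) := by
  have e : (fun T : (Fin 8 → ℤ) × ℤ => q2 (ek T.1) T.2) =
      fun T => (ek T.1 5 * ek T.1 5 +
        2 * (ek T.1 3 * ek T.1 7)) -
        4 * (T.2 * ek T.1 4 + ek T.1 8 * ek T.1 2) := by
    funext T
    unfold q2
    ring
  rw [e]
  exact (((bo_e hc 5).mul (bo_e hc 5) (by omega)).add
    (BO.cmul 2 ((bo_e hc 3).mul (bo_e hc 7) (by omega)))).sub
    (BO.cmul 4 (((bo_t hc).mul (bo_e hc 4) (by omega)).add ((bo_e hc 8).mul (bo_e hc 2) (by omega))))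

theorem bo_q1 (hc : 0 ≤ cc) : BO cc 12 (fun T => q1 (ek T.1) T.2) := by
  have e : (fun T : (Fin 8 → ℤ) × ℤ => q1 (ek T.1) T.2) =
      fun T => 2 * (ek T.1 5 * ek T.1 7) -
        4 * (T.2 * (ek T.1 6 - T.2) +
          ek T.1 8 * ek T.1 4) := by
    funext T
    unfold q1
    ring
  rw [e]
  exact (BO.cmul 2 ((bo_e hc 5).mul (bo_e hc 7) (by omega))).sub
    (BO.cmul 4 (((bo_t hc).mul ((bo_e hc 6).sub (bo_t hc)) (by omega)).add
      ((bo_e hc 8).mul (bo_e hc 4) (by omega))))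

theorem bo_q0 (hc : 0 ≤ cc) : BO cc 14 (fun T => q0 (ek T.1) T.2) := by
  have e : (fun T : (Fin 8 → ℤ) × ℤ => q0 (ek T.1) T.2) =
      fun T => ek T.1 7 * ek T.1 7 -
        4 * (ek T.1 8 * (ek T.1 6 - T.2)) := by
    funext T
    unfold q0
    ring
  rw [e]
  exact ((bo_e hc 7).mul (bo_e hc 7) (by omega)).sub
    (BO.cmul 4 ((bo_e hc 8).mul ((bo_e hc 6).sub (bo_t hc)) (by omega)))

theorem bo_I (hc : 0 ≤ cc) : BO cc 20 (fun T => fI (ek T.1) T.2) := by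
  have e : (fun T : (Fin 8 → ℤ) × ℤ => fI (ek T.1) T.2) =
      fun T => (12 * (q4 (ek T.1) T.2 * q0 (ek T.1) T.2) -
        3 * (q3 (ek T.1) T.2 * q1 (ek T.1) T.2)) +
        q2 (ek T.1) T.2 * q2 (ek T.1) T.2 := by
    funext T
    unfold fI
    ring
  rw [e]
  exact ((BO.cmul 12 ((bo_q4 hc).mul (bo_q0 hc) (by omega))).sub
    (BO.cmul 3 ((bo_q3 hc).mul (bo_q1 hc) (by omega)))).add ((bo_q2 hc).mul (bo_q2 hc) (by omega))

theorem bo_J (hc : 0 ≤ cc) : BO cc 30 (fun T => fJ (ek T.1) T.2) := by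
  have e : (fun T : (Fin 8 → ℤ) × ℤ => fJ (ek T.1) T.2) =
      fun T => (((72 * ((q4 (ek T.1) T.2 * q2 (ek T.1) T.2) *
          q0 (ek T.1) T.2) +
        9 * ((q3 (ek T.1) T.2 * q2 (ek T.1) T.2) *
          q1 (ek T.1) T.2)) -
        27 * (q4 (ek T.1) T.2 * (q1 (ek T.1) T.2 *
          q1 (ek T.1) T.2))) -
        27 * (q0 (ek T.1) T.2 * (q3 (ek T.1) T.2 *
          q3 (ek T.1) T.2))) -
        2 * (q2 (ek T.1) T.2 * (q2 (ek T.1) T.2 *
          q2 (ek T.1) T.2)) := by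
    funext T
    unfold fJ
    ring
  rw [e]
  exact ((((BO.cmul 72 (((bo_q4 hc).mul (bo_q2 hc) (l := 16) (by omega)).mul (bo_q0 hc) (by omega))).add
    (BO.cmul 9 (((bo_q3 hc).mul (bo_q2 hc) (l := 18) (by omega)).mul (bo_q1 hc) (by omega)))).sub
    (BO.cmul 27 ((bo_q4 hc).mul ((bo_q1 hc).mul (bo_q1 hc) (l := 24) (by omega)) (by omega)))).sub
    (BO.cmul 27 ((bo_q0 hc).mul ((bo_q3 hc).mul (bo_q3 hc) (l := 16) (by omega)) (by omega)))).sub
    (BO.cmul 2 ((bo_q2 hc).mul ((bo_q2 hc).mul (bo_q2 hc) (l := 20) (by omega)) (by omega)))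

end Pool.Helper34.R9.S84

namespace Pool.Helper34.R9

open Pool.Helper34.R9.S84

theorem st_BD9 : ST_BD9 := by
  intro cc hcc
  have hc : 0 ≤ cc := by linarith
  have he : ∀ k : ℕ, ∃ D : ℤ, 0 ≤ D ∧ ∀ m : ℕ, 1 ≤ m → ∀ T, Ok cc m T →
      |Pool.Helper17.R8.ek T.1 k| ≤ D * (m : ℤ) ^ k := fun k => bo_e hc k
  choose D hD0 hD using he
  obtain ⟨DI, hI0, hI⟩ := bo_I (cc := cc) hc
  obtain ⟨DJ, hJ0, hJ⟩ := bo_J (cc := cc) hc
  have hS0 : 0 ≤ ∑ k ∈ Finset.range 9, D k := Finset.sum_nonneg fun k _ => hD0 k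
  refine ⟨(∑ k ∈ Finset.range 9, D k) + DI + DJ + 1, by linarith, fun m s t hm hs ht => ?_⟩
  have hT : Ok cc m (s, t) := ⟨hs, ht⟩
  refine ⟨fun k hk => ?_, ?_, ?_⟩
  · refine (hD k m hm (s, t) hT).trans ?_
    apply mul_le_mul_of_nonneg_right _ (by positivity)
    have := Finset.single_le_sum (f := D) (fun j _ => hD0 j)
      (Finset.mem_range.2 (by omega : k < 9))
    linarith
  · refine (hI m hm (s, t) hT).trans ?_
    apply mul_le_mul_of_nonneg_right _ (by positivity)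
    linarith
  · refine (hJ m hm (s, t) hT).trans ?_
    apply mul_le_mul_of_nonneg_right _ (by positivity)
    linarith

end Pool.Helper34.R9
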