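import Pool.Agent.Helper89.R9.Sheet

/-! # Row CONG9 of `Pool.Helper89.R9W` (MP_798d7d_nt) -/

set_option autoImplicit false

namespace Pool.Helper89.R9W

namespace S84

theorem MM_ne : MM ≠ 0 := by
  unfold MM
  have h : (0 : ℤ) < (Nat.factorial QQ : ℤ) := by exact_mod_cast Nat.factorial_pos QQ
  exact mul_ne_zero (by norm_num) h.ne'

theorem cc0 : cc 0 = 0 := rfl

end S84

open S84

theorem st_CONG9 : ST_CONG9 := by
  refine ⟨fun T => ⟨fun i => ⟨(T.1 i : ℤ) + cc i * (T.1 0 : ℤ), ?_⟩, ⟨(T.2 : ℤ), ?_⟩⟩, ?_⟩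
  · show (ub i + MM * ((T.1 i : ℤ) + cc i * (T.1 0 : ℤ))) - ub i = _
    ring
  · show (-40 + MM * (T.2 : ℤ)) + 40 = _
    ring
  · intro T T' h
    unfold ww at h
    obtain ⟨h0, h2⟩ := Prod.mk.inj h
    have h1 : ∀ i, ub i + MM * ((T.1 i : ℤ) + cc i * (T.1 0 : ℤ)) =
        ub i + MM * ((T'.1 i : ℤ) + cc i * (T'.1 0 : ℤ)) := fun i => congrFun h0 i
    have h3 : ∀ i, (T.1 i : ℤ) + cc i * (T.1 0 : ℤ) = (T'.1 i : ℤ) + cc i * (T'.1 0 : ℤ) :=
      fun i => mul_left_cancel₀ MM_ne (add_left_cancel (h1 i))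
    have h4 : (T.2 : ℤ) = (T'.2 : ℤ) := mul_left_cancel₀ MM_ne (add_left_cancel h2)
    have h5 : (T.1 0 : ℤ) = (T'.1 0 : ℤ) := by
      have := h3 0
      rw [cc0, zero_mul, zero_mul, add_zero, add_zero] at this
      exact this
    refine Prod.ext ?_ ?_
    · funext i
      have := h3 i
      rw [h5] at this
      have h6 : (T.1 i : ℤ) = (T'.1 i : ℤ) := add_right_cancel this
      exact_mod_cast h6
    · exact_mod_cast h4

end Pool.Helper89.R9W
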